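import Pool.Agent.Helper93_Blowup.Upper

/-!
# The homomorphism threshold and the blowup threshold differ for the wheel `W₄ = K_{1,2,2}`

This disproves the equality `δ_hom(H) = δ_B(H)` for all graphs `H`.

* Lower bound on `δ_B(W₄)`: the graph `K_{2N,2N}` plus a perfect matching inside one part is
  `W₄`-free and has minimum degree half its order; any maximal `W₄`-free graph containing it is
  not a blowup of a graph with fewer than about `√N` vertices, because two matching edges lying
  between the same two classes would span a 4-cycle inside one part.
* Upper bound on `δ_hom(W₄)`: a `W₄`-free graph on `n ≥ 40001` vertices with minimum degree at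
  least `49n/100` splits into two parts each inducing a matching, so it is 4-colourable and maps
  to the `W₄`-free graph `K₄`; the finitely many smaller graphs are added as further components.
-/

namespace Pool.Agent.Results.MP_dfc8ea_co.WheelCounterexample

open Pool.Agent.Helper93Blowup

/-- For the wheel `W₄ = K_{1,2,2}`: `δ_hom(W₄) < δ_B(W₄)`; more precisely
`δ_hom(W₄) ≤ 49/100` and `1/2 ≤ δ_B(W₄)`. -/
theorem result :
    homThreshold wheelFour < blowupThreshold wheelFour ∧
      homThreshold wheelFour ≤ 49 / 100 ∧ 1 / 2 ≤ blowupThreshold wheelFour :=
  ⟨homThreshold_lt_blowupThreshold, homThreshold_le, half_le_blowupThreshold⟩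

end Pool.Agent.Results.MP_dfc8ea_co.WheelCounterexample
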